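import Pool.Agent.TH888.B1.Roots

/-!
Positive density of the primes modulo which polynomials without real zeros have no zeros.
-/

set_option autoImplicit false
set_option linter.all false
set_option maxHeartbeats 4000000

namespace Pool.Agent.Y701.CH

open Finset Filter Topology NumberField Polynomial
open Pool.Agent.W401.Cheb Pool.Agent.TH888.B1

/-- The set of natural numbers has positive lower density in the primes. -/
def PosDensity (A : Set ℕ) : Prop :=
  ∃ c : ℝ, 0 < c ∧ ∃ N₀ : ℕ, ∀ N : ℕ, N₀ ≤ N →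
    c * Nat.primeCounting N ≤ Set.ncard {p : ℕ | p ≤ N ∧ p.Prime ∧ p ∈ A}

theorem PosDensity.mono {A B : Set ℕ} (h : PosDensity A) (hAB : A ⊆ B) : PosDensity B := by
  obtain ⟨c, hc, N₀, hN⟩ := h
  refine ⟨c, hc, N₀, fun N hN' => (hN N hN').trans ?_⟩
  have : Set.ncard {p : ℕ | p ≤ N ∧ p.Prime ∧ p ∈ A} ≤ Set.ncard {p : ℕ | p ≤ N ∧ p.Prime ∧ p ∈ B} :=
    Set.ncard_le_ncard (fun p hp => ⟨hp.1, hp.2.1, hAB hp.2.2⟩)
      ((Set.finite_Iic N).subset fun p hp => hp.1)
  exact_mod_cast this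

theorem tendsto_pi : Tendsto (fun N : ℕ => (Nat.primeCounting N : ℝ)) atTop atTop :=
  tendsto_natCast_atTop_atTop.comp Nat.tendsto_primeCounting

theorem PosDensity.diff {A F : Set ℕ} (h : PosDensity A) (hF : F.Finite) : PosDensity (A \ F) := by
  obtain ⟨c, hc, N₀, hN⟩ := h
  obtain ⟨N₁, hN₁⟩ := (tendsto_pi.eventually_ge_atTop ((F.ncard : ℝ) / (c / 2))).exists_forall_of_atTop
  refine ⟨c / 2, by linarith, max N₀ N₁, fun N hN' => ?_⟩
  have h1 := hN N (le_trans (le_max_left _ _) hN')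
  have h2 := hN₁ N (le_trans (le_max_right _ _) hN')
  rw [div_le_iff₀ (by linarith)] at h2
  have h3 : Set.ncard {p : ℕ | p ≤ N ∧ p.Prime ∧ p ∈ A} ≤
      Set.ncard {p : ℕ | p ≤ N ∧ p.Prime ∧ p ∈ A \ F} + F.ncard := by
    refine (Set.ncard_le_ncard (t := {p : ℕ | p ≤ N ∧ p.Prime ∧ p ∈ A \ F} ∪ F) ?_ ?_).trans
      (Set.ncard_union_le _ _)
    · intro p hp
      by_cases hpF : p ∈ F
      · exact Or.inr hpF
      · exact Or.inl ⟨hp.1, hp.2.1, hp.2.2, hpF⟩
    · exact ((Set.finite_Iic N).subset fun p hp => hp.1).union hF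
  have h4 : (Set.ncard {p : ℕ | p ≤ N ∧ p.Prime ∧ p ∈ A} : ℝ) ≤
      Set.ncard {p : ℕ | p ≤ N ∧ p.Prime ∧ p ∈ A \ F} + F.ncard := by exact_mod_cast h3
  nlinarith

theorem xp_prime {L : Type} [Field L] [NumberField L] {g : Gal(L/ℚ)} {p : ℕ} (h : xp L g p ≠ 0) :
    p.Prime := by
  by_contra hp
  apply h
  unfold xp
  rw [dif_neg hp]

theorem frob_density (L : Type) [Field L] [NumberField L] [IsGalois ℚ L] (g : Gal(L/ℚ)) :
    PosDensity {p : ℕ | xp L g p ≠ 0} := by
  classical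
  obtain ⟨D, hD, hTor⟩ := torsor L
  set C : ℕ := Nat.card Gal(L/ℚ) + ∑ p ∈ range (D + 1), xp L g p with hC
  have hCpos : 0 < C := by
    have : 0 < Nat.card Gal(L/ℚ) := Nat.card_pos
    omega
  have hb : ∀ p : ℕ, p.Prime → xp L g p ≤ C := by
    intro p hp
    have : Fact p.Prime := ⟨hp⟩
    by_cases hpD : p ∣ D
    · have h1 : p ∈ range (D + 1) := mem_range.mpr (by have := Nat.le_of_dvd hD hpD; omega)
      have h2 : xp L g p ≤ ∑ p ∈ range (D + 1), xp L g p :=
        single_le_sum (f := fun p => xp L g p) (fun _ _ => Nat.zero_le _) h1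
      exact h2.trans (Nat.le_add_left _ _)
    · obtain ⟨h1, -, -⟩ := hTor p hpD
      have h2 : xp L g p ≤ Nat.card Gal(L/ℚ) := by
        unfold xp
        rw [dif_pos hp]
        have hf : Finite (𝓞 L →+* AlgebraicClosure (ZMod p)) := by
          apply Nat.finite_of_card_ne_zero
          rw [h1]
          exact Nat.card_pos.ne'
        rw [← h1]
        exact Nat.card_le_card_of_injective (fun φ => φ.1) Subtype.val_injective
      exact h2.trans (Nat.le_add_right _ _)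
  have hch := chebotarev L g
  have h1 := hch.eventually (lt_mem_nhds (show (1 / 2 : ℝ) < 1 by norm_num))
  obtain ⟨N₁, hN₁⟩ := (h1.and (tendsto_pi.eventually_gt_atTop 0)).exists_forall_of_atTop
  refine ⟨1 / (2 * C), by positivity, N₁, fun N hN => ?_⟩
  obtain ⟨h2, h3⟩ := hN₁ N hN
  rw [lt_div_iff₀ h3] at h2
  have h4 : (∑ p ∈ pr N, (xp L g p : ℝ)) ≤
      (C : ℝ) * Set.ncard {p : ℕ | p ≤ N ∧ p.Prime ∧ p ∈ {p : ℕ | xp L g p ≠ 0}} := by
    have e1 : {p : ℕ | p ≤ N ∧ p.Prime ∧ p ∈ {p : ℕ | xp L g p ≠ 0}} =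
        ((pr N).filter fun p => xp L g p ≠ 0 : Finset ℕ) := by
      ext p
      simp only [pr, Set.mem_setOf_eq, coe_filter, mem_filter, mem_range, Nat.lt_succ_iff, and_assoc]
    rw [e1, Set.ncard_coe_finset]
    have e2 : ∑ p ∈ pr N, (xp L g p : ℝ) =
        ∑ p ∈ (pr N).filter (fun p => xp L g p ≠ 0), (xp L g p : ℝ) := by
      symm
      apply Finset.sum_filter_of_ne
      intro p _ hp h0
      apply hp
      rw [h0]; simp
    rw [e2]
    calc _ ≤ ∑ p ∈ (pr N).filter (fun p => xp L g p ≠ 0), (C : ℝ) := by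
          apply Finset.sum_le_sum
          intro p hp
          have := hb p (mem_filter.1 (mem_filter.1 hp).1).2
          exact_mod_cast this
      _ = _ := by rw [Finset.sum_const, nsmul_eq_mul, mul_comm]
  have hCR : (0 : ℝ) < C := by exact_mod_cast hCpos
  have h5 : 1 / (2 * (C : ℝ)) * Nat.primeCounting N = (1 / 2 * Nat.primeCounting N) / C := by
    field_simp
  rw [h5, div_le_iff₀ hCR]
  linarith

section frob

variable {L : Type} [Field L] [NumberField L]

/-- nonzero integers of `L` do not vanish modulo almost all primes -/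
theorem not_zero_hom (x : 𝓞 L) (hx : x ≠ 0) :
    ∃ D : ℕ, D ≠ 0 ∧ ∀ (p : ℕ) [Fact p.Prime] (φ : 𝓞 L →+* AlgebraicClosure (ZMod p)),
      ¬ p ∣ D → φ x ≠ 0 := by
  refine ⟨Ideal.absNorm (Ideal.span {x}), ?_, ?_⟩
  · rw [Ne, Ideal.absNorm_eq_zero_iff, Ideal.span_singleton_eq_bot]
    exact hx
  · intro p _ φ hp h0
    apply hp
    have h1 := Ideal.absNorm_mem (Ideal.span {x})
    rw [Ideal.mem_span_singleton] at h1
    obtain ⟨c, hc⟩ := h1
    have h2 := congrArg φ hc
    rw [map_mul, h0, zero_mul, map_natCast] at h2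
    exact (CharP.cast_eq_zero_iff (AlgebraicClosure (ZMod p)) p _).1 h2

/-- A polynomial over the integers that splits in `L`, no root of which is fixed by `σ`, has no root
modulo almost all primes with Frobenius `σ`. -/
theorem no_root (σ : Gal(L/ℚ)) (H : ℤ[X]) (hH : H ≠ 0)
    (hs : (H.map (algebraMap ℤ L)).Splits) (hfix : ∀ α : L, aeval α H = 0 → σ α ≠ α) :
    ∃ D : ℕ, D ≠ 0 ∧ ∀ (p : ℕ) [Fact p.Prime] (φ : 𝓞 L →+* AlgebraicClosure (ZMod p)),
      (∀ x : 𝓞 L, φ (σ • x) = φ x ^ p) → ¬ p ∣ D →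
        ∀ z : ZMod p, (H.map (Int.castRingHom (ZMod p))).eval z ≠ 0 := by
  classical
  set a : ℤ := H.leadingCoeff with ha
  have ha0 : a ≠ 0 := leadingCoeff_ne_zero.2 hH
  have hHL : H.map (algebraMap ℤ L) ≠ 0 := by
    rw [Polynomial.map_ne_zero_iff (RingHom.injective_int _)]
    exact hH
  obtain ⟨M, hM⟩ : ∃ M : Multiset L, M = (H.map (algebraMap ℤ L)).roots := ⟨_, rfl⟩
  have hroots : ∀ α ∈ M, aeval α H = 0 := by
    intro α hα
    rw [hM, mem_roots hHL, IsRoot.def, eval_map_algebraMap] at hα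
    exact hα
  have hlead : (H.map (algebraMap ℤ L)).leadingCoeff = algebraMap ℤ L a := by
    rw [leadingCoeff_map_of_injective (RingHom.injective_int _)]
  -- the integers `a α`
  have hint : ∀ α : {α // α ∈ M}, ∃ y : 𝓞 L, (y : L) = (a : L) * α.1 := by
    intro α
    have h1 : IsIntegral ℤ (H.leadingCoeff • α.1) :=
      isIntegral_leadingCoeff_smul H α.1 (hroots α.1 α.2)
    refine ⟨⟨_, h1⟩, ?_⟩
    show H.leadingCoeff • α.1 = (a : L) * α.1
    rw [zsmul_eq_mul]
  choose y hy using hint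
  have hne : ∀ α, σ • y α - y α ≠ 0 := by
    intro α h0
    apply hfix α.1 (hroots α.1 α.2)
    have h1 : ((σ • y α - y α : 𝓞 L) : L) = 0 := by rw [h0]; rfl
    have h2 : ((σ • y α : 𝓞 L) : L) = σ (y α : L) := rfl
    have h3 : σ (y α : L) - (y α : L) = 0 := by
      rw [← h2]
      exact h1
    rw [hy, map_mul, map_intCast, ← mul_sub] at h3
    have h4 := (mul_eq_zero.1 h3).resolve_left (by exact_mod_cast ha0)
    exact sub_eq_zero.1 h4
  choose D hD0 hD using fun α => not_zero_hom _ (hne α)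
  refine ⟨a.natAbs * ∏ α ∈ M.toFinset.attach, D ⟨α.1, Multiset.mem_toFinset.1 α.2⟩, ?_, ?_⟩
  · refine mul_ne_zero (Int.natAbs_ne_zero.2 ha0) (Finset.prod_ne_zero_iff.2 fun α _ => hD0 _)
  intro p _ φ hφ hp z hz
  have hpa : ¬ (p : ℤ) ∣ a := by
    intro h
    apply hp
    exact (Int.natCast_dvd.1 h).mul_right _
  have hpD : ∀ α, ¬ p ∣ D α := by
    intro α h
    apply hp
    apply Dvd.dvd.mul_left
    have h1 : (⟨α.1, Multiset.mem_toFinset.2 α.2⟩ : {x // x ∈ M.toFinset}) ∈ M.toFinset.attach :=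
      Finset.mem_attach _ _
    exact h.trans (Finset.dvd_prod_of_mem
      (fun α : {x // x ∈ M.toFinset} => D ⟨α.1, Multiset.mem_toFinset.1 α.2⟩) h1)
  -- the factorisation
  have hfac : H.map (algebraMap ℤ L) =
      C (algebraMap ℤ L a) * (M.map (X - C ·)).prod := by
    rw [← hlead, hM]
    exact hs.eq_prod_roots
  have hfac2 : C ((a : L) ^ M.card) * H.map (algebraMap ℤ L) =
      C (a : L) * (M.attach.map (fun α => C (a : L) * X - C ((y α : 𝓞 L) : L))).prod := by
    rw [hfac]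
    have h1 : (M.attach.map (fun α => C (a : L) * X - C ((y α : 𝓞 L) : L))).prod =
        (M.map (fun α => C (a : L) * (X - C α))).prod := by
      rw [← Multiset.attach_map_val' M (fun α => C (a : L) * (X - C α))]
      congr 1
      apply Multiset.map_congr rfl
      intro α _
      rw [hy, C_mul, mul_sub]
    rw [h1, Multiset.prod_map_mul, Multiset.map_const', Multiset.prod_replicate, map_pow]
    have h2 : (algebraMap ℤ L a : L) = (a : L) := rfl
    rw [h2]
    ring
  have hfac3 : C ((a : 𝓞 L) ^ M.card) * H.map (algebraMap ℤ (𝓞 L)) =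
      C (a : 𝓞 L) * (M.attach.map (fun α => C (a : 𝓞 L) * X - C (y α))).prod := by
    apply Polynomial.map_injective (algebraMap (𝓞 L) L) RingOfIntegers.coe_injective
    have e1 : (H.map (algebraMap ℤ (𝓞 L))).map (algebraMap (𝓞 L) L) = H.map (algebraMap ℤ L) := by
      rw [Polynomial.map_map]
      congr 1
    rw [Polynomial.map_mul, Polynomial.map_mul, e1, Polynomial.map_C, Polynomial.map_C, map_pow,
      map_intCast, hfac2, Polynomial.map_multiset_prod, Multiset.map_map]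
    congr 2
    apply Multiset.map_congr rfl
    intro α _
    show C (a : L) * X - C ((y α : 𝓞 L) : L) =
      (C (a : 𝓞 L) * X - C (y α)).map (algebraMap (𝓞 L) L)
    rw [Polynomial.map_sub, Polynomial.map_mul, Polynomial.map_C, Polynomial.map_C,
      Polynomial.map_X, map_intCast (algebraMap (𝓞 L) L)]
  -- evaluate modulo `p`
  set z' : AlgebraicClosure (ZMod p) := algebraMap (ZMod p) _ z with hz'
  have h1 := congrArg (fun P : (𝓞 L)[X] => (P.map φ).eval z') hfac3
  simp only [Polynomial.map_mul, Polynomial.map_C, eval_mul, eval_C, Polynomial.map_map] at h1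
  have h2 : (H.map (φ.comp (algebraMap ℤ (𝓞 L)))).eval z' = 0 := by
    have e1 : φ.comp (algebraMap ℤ (𝓞 L)) =
        (algebraMap (ZMod p) (AlgebraicClosure (ZMod p))).comp (Int.castRingHom (ZMod p)) :=
      RingHom.ext_int _ _
    rw [e1, ← Polynomial.map_map, hz', eval_map_algebraMap, aeval_algebraMap_apply,
      coe_aeval_eq_eval, hz, map_zero]
  rw [h2, mul_zero, map_intCast] at h1
  have haF : ((a : ℤ) : AlgebraicClosure (ZMod p)) ≠ 0 := by
    intro h
    apply hpa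
    exact (CharP.intCast_eq_zero_iff (AlgebraicClosure (ZMod p)) p _).1 h
  have h3 := (mul_eq_zero.1 h1.symm).resolve_left haF
  rw [Polynomial.map_multiset_prod, eval_multiset_prod, Multiset.prod_eq_zero_iff,
    Multiset.map_map, Multiset.map_map] at h3
  obtain ⟨α, -, hα⟩ := Multiset.mem_map.1 h3
  rw [Function.comp_apply, Function.comp_apply, Polynomial.map_sub, Polynomial.map_mul,
    Polynomial.map_C, Polynomial.map_C, Polynomial.map_X, eval_sub, eval_mul, eval_C, eval_C,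
    eval_X, map_intCast] at hα
  have h4 : φ (y α) = algebraMap (ZMod p) _ ((a : ZMod p) * z) := by
    rw [map_mul, map_intCast, ← hz']
    exact (sub_eq_zero.1 hα).symm
  have h5 : φ (σ • y α) = φ (y α) := by
    rw [hφ, h4, ← map_pow, ZMod.pow_card]
  apply hD α p φ (hpD α)
  rw [map_sub, h5, sub_self]

/-- square roots -/
theorem square_of_fixed (σ : Gal(L/ℚ)) (m : ℤ) (s : 𝓞 L) (hs : s ^ 2 = (m : 𝓞 L))
    (hσ : σ • s = s) {p : ℕ} [Fact p.Prime] (φ : 𝓞 L →+* AlgebraicClosure (ZMod p))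
    (hφ : ∀ x : 𝓞 L, φ (σ • x) = φ x ^ p) : IsSquare ((m : ℤ) : ZMod p) := by
  have h1 : φ s ^ p = φ s := by rw [← hφ, hσ]
  obtain ⟨t, ht⟩ := W54.ChTor.frob_fixed p (φ s) h1
  refine ⟨t, ?_⟩
  apply (algebraMap (ZMod p) (AlgebraicClosure (ZMod p))).injective
  rw [map_mul, ht, ← sq, ← map_pow, hs, map_intCast, map_intCast]

theorem nonsquare_of_neg (σ : Gal(L/ℚ)) (m : ℤ) (s : 𝓞 L) (hs : s ^ 2 = (m : 𝓞 L))
    (hσ : σ • s = -s) {p : ℕ} [Fact p.Prime] (φ : 𝓞 L →+* AlgebraicClosure (ZMod p))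
    (hφ : ∀ x : 𝓞 L, φ (σ • x) = φ x ^ p) (hp : p ≠ 2) (hm : ¬ (p : ℤ) ∣ m) :
    ¬ IsSquare ((m : ℤ) : ZMod p) := by
  rintro ⟨t, ht⟩
  have h1 : φ s ^ p = - φ s := by rw [← hφ, hσ, map_neg]
  have h2 : φ s ^ 2 = (algebraMap (ZMod p) (AlgebraicClosure (ZMod p)) t) ^ 2 := by
    rw [← map_pow, hs, ← map_pow, sq, ← ht, map_intCast, map_intCast]
  have h3 : φ s ^ p = φ s := by
    rcases sq_eq_sq_iff_eq_or_eq_neg.1 h2 with h | h
    · rw [h, ← map_pow, ZMod.pow_card]
    · rw [h, ← map_neg, ← map_pow, ZMod.pow_card]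
  have h4 : φ s ≠ 0 := by
    intro h
    apply hm
    have h5 : ((m : ℤ) : AlgebraicClosure (ZMod p)) = 0 := by
      have := congrArg φ hs
      rw [map_pow, h, map_intCast] at this
      rw [← this]; ring
    exact (CharP.intCast_eq_zero_iff (AlgebraicClosure (ZMod p)) p _).1 h5
  have h5 : (2 : AlgebraicClosure (ZMod p)) * φ s = 0 := by
    rw [h3] at h1
    linear_combination h1
  have h6 : (2 : AlgebraicClosure (ZMod p)) = 0 := (mul_eq_zero.1 h5).resolve_right h4
  have h7 : ((2 : ℕ) : AlgebraicClosure (ZMod p)) = 0 := by exact_mod_cast h6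
  rw [CharP.cast_eq_zero_iff (AlgebraicClosure (ZMod p)) p] at h7
  exact hp ((Nat.prime_dvd_prime_iff_eq Fact.out Nat.prime_two).1 h7)

end frob

end Pool.Agent.Y701.CH
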