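import Pool.Agent.Y701.CH.Dens

/-!
Primes whose Frobenius is the complex conjugation.
-/

set_option autoImplicit false
set_option linter.all false
set_option maxHeartbeats 4000000

namespace Pool.Agent.Y701.CH

open Finset Filter Topology NumberField Polynomial
open Pool.Agent.W401.Cheb Pool.Agent.TH888.B1

theorem conj_eq_of_sq {z : ℂ} {m : ℕ} (h : z ^ 2 = (m : ℂ)) : (starRingEnd ℂ) z = z := by
  rw [Complex.conj_eq_iff_im]
  have h1 := congrArg Complex.re h
  have h2 := congrArg Complex.im h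
  simp only [sq, Complex.mul_re, Complex.mul_im, Complex.natCast_re, Complex.natCast_im] at h1 h2
  by_contra him
  have hre : z.re = 0 := by
    have h3 : z.im * z.re = 0 := by nlinarith
    exact (mul_eq_zero.1 h3).resolve_left him
  rw [hre] at h1
  have h3 : (0 : ℝ) < z.im * z.im := mul_self_pos.2 him
  have h4 : (0 : ℝ) ≤ m := Nat.cast_nonneg m
  nlinarith

theorem conj_neg_of_sq {z : ℂ} (h : z ^ 2 = -1) : (starRingEnd ℂ) z = -z := by
  have h1 : z = Complex.I ∨ z = -Complex.I := by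
    apply sq_eq_sq_iff_eq_or_eq_neg.1
    rw [h, Complex.I_sq]
  rcases h1 with rfl | rfl
  · exact Complex.conj_I
  · rw [map_neg, Complex.conj_I]

/-- The primes modulo which a polynomial without real zeros has no zeros have positive lower
density. -/
theorem real_density (H : ℤ[X]) (hH : H ≠ 0) (hreal : ∀ x : ℝ, aeval x H ≠ 0) (m : ℕ) :
    PosDensity {ℓ : ℕ | ℓ.Prime ∧ ℓ % 4 = 3 ∧ IsSquare ((m : ℕ) : ZMod ℓ) ∧
      ∀ z : ZMod ℓ, (H.map (Int.castRingHom (ZMod ℓ))).eval z ≠ 0} := by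
  classical
  -- the field
  obtain ⟨F, hF⟩ : ∃ F : ℚ[X], F = H.map (Int.castRingHom ℚ) * ((X ^ 2 + 1) *
    (X ^ 2 - C (m : ℚ))) := ⟨_, rfl⟩
  have hHQ : H.map (Int.castRingHom ℚ) ≠ 0 := by
    rw [Polynomial.map_ne_zero_iff (RingHom.injective_int _)]
    exact hH
  have h1ne : (X ^ 2 + 1 : ℚ[X]) ≠ 0 := by
    have := (monic_X_pow_add_C (1 : ℚ) (n := 2) two_ne_zero).ne_zero
    rwa [C_1] at this
  have h2ne : (X ^ 2 - C (m : ℚ) : ℚ[X]) ≠ 0 := X_pow_sub_C_ne_zero (by norm_num) _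
  have hF0 : F ≠ 0 := by
    rw [hF]
    exact mul_ne_zero hHQ (mul_ne_zero h1ne h2ne)
  have hdH : H.map (Int.castRingHom ℚ) ∣ F := by
    rw [hF]; exact dvd_mul_right _ _
  have hdm : (X ^ 2 - C (m : ℚ) : ℚ[X]) ∣ F := by
    rw [hF]; exact (dvd_mul_left _ _).mul_left _
  have hdi : (X ^ 2 - C (-1 : ℚ) : ℚ[X]) ∣ F := by
    have : (X ^ 2 - C (-1 : ℚ) : ℚ[X]) = X ^ 2 + 1 := by
      rw [C_neg, C_1, sub_neg_eq_add]
    rw [this, hF]
    exact (dvd_mul_right _ _).mul_left _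
  have hS : IsSplittingField ℚ F.SplittingField F := IsSplittingField.splittingField F
  have h1 : FiniteDimensional ℚ F.SplittingField := IsSplittingField.finiteDimensional _ F
  have h2 : CharZero F.SplittingField :=
    charZero_of_injective_algebraMap (algebraMap ℚ F.SplittingField).injective
  have hnf : NumberField F.SplittingField := ⟨⟩
  have hN : Normal ℚ F.SplittingField := Normal.of_isSplittingField F
  have hG : IsGalois ℚ F.SplittingField := ⟨⟩
  set L := F.SplittingField with hL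
  have hsplit : (F.map (algebraMap ℚ L)).Splits := SplittingField.splits F
  have hFmap0 : F.map (algebraMap ℚ L) ≠ 0 := by
    rw [Polynomial.map_ne_zero_iff (algebraMap ℚ L).injective]
    exact hF0
  have hs1 : (H.map (algebraMap ℤ L)).Splits := by
    have e1 : (H.map (Int.castRingHom ℚ)).map (algebraMap ℚ L) = H.map (algebraMap ℤ L) := by
      rw [Polynomial.map_map]
      congr 1
    rw [← e1]
    exact hsplit.of_dvd hFmap0 (Polynomial.map_dvd _ hdH)
  have hex : ∀ c : ℚ, (X ^ 2 - C c : ℚ[X]) ∣ F → ∃ s : L, s ^ 2 = algebraMap ℚ L c := by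
    intro c hc
    have e1 : ((X ^ 2 - C c : ℚ[X]).map (algebraMap ℚ L)).Splits :=
      hsplit.of_dvd hFmap0 (Polynomial.map_dvd _ hc)
    have e2 : ((X ^ 2 - C c : ℚ[X]).map (algebraMap ℚ L)).degree ≠ 0 := by
      rw [degree_map, degree_X_pow_sub_C (by norm_num)]
      norm_num
    obtain ⟨s, hs⟩ := e1.exists_eval_eq_zero e2
    refine ⟨s, ?_⟩
    rw [eval_map_algebraMap, map_sub, map_pow, aeval_X, aeval_C, sub_eq_zero] at hs
    exact hs
  obtain ⟨s, hs⟩ := hex (m : ℚ) hdm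
  obtain ⟨i, hi⟩ := hex (-1) hdi
  rw [map_natCast] at hs
  rw [map_neg, map_one] at hi
  -- complex conjugation
  let ι : L →ₐ[ℚ] ℂ := IsAlgClosed.lift
  let _ : Algebra L ℂ := ι.toRingHom.toAlgebra
  have : IsScalarTower ℚ L ℂ := IsScalarTower.of_algebraMap_eq fun x => (ι.commutes x).symm
  let σ : Gal(L/ℚ) := (Complex.conjAe.restrictScalars ℚ).restrictNormal L
  have hσ : ∀ x : L, ι (σ x) = (starRingEnd ℂ) (ι x) := fun x =>
    AlgEquiv.restrictNormal_commutes (Complex.conjAe.restrictScalars ℚ) L x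
  have hfix : ∀ α : L, aeval α H = 0 → σ α ≠ α := by
    intro α hα hfα
    have h3 := hσ α
    rw [hfα] at h3
    have h4 := (Complex.conj_eq_iff_real.1 h3.symm)
    obtain ⟨r, hr⟩ := h4
    apply hreal r
    have h5 : ι (aeval α H) = aeval (ι α) H :=
      (Polynomial.aeval_algHom_apply (ι.restrictScalars ℤ) α H).symm
    rw [hα, map_zero, hr] at h5
    have h6 : aeval ((r : ℝ) : ℂ) H = ((aeval r H : ℝ) : ℂ) := by
      have := Polynomial.aeval_algebraMap_apply ℂ r H
      exact this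
    rw [h6] at h5
    exact_mod_cast h5.symm
  obtain ⟨D, hD0, hD⟩ := no_root σ H hH hs1 hfix
  -- the integers
  have hsint : IsIntegral ℤ s := by
    refine ⟨X ^ 2 - C (m : ℤ), monic_X_pow_sub_C _ (by norm_num), ?_⟩
    rw [eval₂_sub, eval₂_X_pow, eval₂_C, hs]
    simp
  have hiint : IsIntegral ℤ i := by
    refine ⟨X ^ 2 + C 1, monic_X_pow_add_C _ (by norm_num), ?_⟩
    rw [eval₂_add, eval₂_X_pow, eval₂_C, hi]
    simp
  obtain ⟨sO, hsO⟩ : ∃ sO : 𝓞 L, (sO : L) = s := ⟨⟨s, hsint⟩, rfl⟩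
  obtain ⟨iO, hiO⟩ : ∃ iO : 𝓞 L, (iO : L) = i := ⟨⟨i, hiint⟩, rfl⟩
  have hs2 : sO ^ 2 = (((m : ℕ) : ℤ) : 𝓞 L) := by
    apply RingOfIntegers.coe_injective
    rw [map_pow, map_intCast]
    show (sO : L) ^ 2 = _
    rw [hsO, hs]
    push_cast
    rfl
  have hi2 : iO ^ 2 = ((-1 : ℤ) : 𝓞 L) := by
    apply RingOfIntegers.coe_injective
    rw [map_pow, map_intCast]
    show (iO : L) ^ 2 = _
    rw [hiO, hi]
    push_cast
    rfl
  have hσs : σ • sO = sO := by
    apply RingOfIntegers.coe_injective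
    show σ (sO : L) = (sO : L)
    rw [hsO]
    apply RingHom.injective (ι : L →+* ℂ)
    show ι (σ s) = ι s
    rw [hσ]
    apply conj_eq_of_sq (m := m)
    rw [← map_pow, hs, map_natCast]
  have hσi : σ • iO = -iO := by
    apply RingOfIntegers.coe_injective
    show σ (iO : L) = ((-iO : 𝓞 L) : L)
    have e1 : ((-iO : 𝓞 L) : L) = -i := by
      rw [← hiO]; rfl
    rw [e1, hiO]
    apply RingHom.injective (ι : L →+* ℂ)
    show ι (σ i) = ι (-i)
    rw [hσ, map_neg]
    apply conj_neg_of_sq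
    rw [← map_pow, hi, map_neg, map_one]
  -- the density
  have hfin : {p : ℕ | p ∣ 2 * D}.Finite := by
    apply (Set.finite_Iic (2 * D)).subset
    intro p hp
    exact Nat.le_of_dvd (Nat.pos_of_ne_zero (mul_ne_zero two_ne_zero hD0)) hp
  refine ((frob_density L σ).diff hfin).mono ?_
  rintro ℓ ⟨hx, hℓ⟩
  have hℓ' : ¬ ℓ ∣ 2 * D := hℓ
  have hprime := xp_prime hx
  have : Fact ℓ.Prime := ⟨hprime⟩
  obtain ⟨φ, hφ⟩ := exists_hom σ hprime hx
  have hℓ2 : ℓ ≠ 2 := by
    rintro rfl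
    exact hℓ' (dvd_mul_right _ _)
  refine ⟨hprime, ?_, ?_, ?_⟩
  · have h3 := nonsquare_of_neg σ (-1) iO hi2 hσi φ hφ hℓ2 (by
      rw [Int.dvd_neg]
      intro h
      have h4 := Int.eq_one_of_dvd_one (by positivity) h
      have := hprime.one_lt
      omega)
    have h4 : ¬ IsSquare (-1 : ZMod ℓ) := by
      intro h
      apply h3
      push_cast
      exact h
    rw [ZMod.exists_sq_eq_neg_one_iff] at h4
    omega
  · have h3 := square_of_fixed σ _ sO hs2 hσs φ hφ
    rw [Int.cast_natCast] at h3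
    exact h3
  · exact hD ℓ φ hφ (fun h => hℓ' (h.mul_left _))

/-- The primes modulo which a polynomial without positive real zeros has no zeros in the squares. -/
theorem square_density (F : ℤ[X]) (hF0 : F.coeff 0 ≠ 0)
    (hreal : ∀ x : ℝ, 0 < x → aeval x F ≠ 0) (m : ℕ) :
    PosDensity {ℓ : ℕ | ℓ.Prime ∧ ℓ % 4 = 3 ∧ IsSquare ((m : ℕ) : ZMod ℓ) ∧
      ∀ z : ZMod ℓ, IsSquare z → (F.map (Int.castRingHom (ZMod ℓ))).eval z ≠ 0} := by
  have hFne : F ≠ 0 := by
    rintro rfl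
    exact hF0 (coeff_zero 0)
  have h1 : F.comp (X ^ 2) ≠ 0 := by
    intro h
    rw [← expand_eq_comp_X_pow, expand_eq_zero (by norm_num)] at h
    exact hFne h
  have h2 : ∀ x : ℝ, aeval x (F.comp (X ^ 2)) ≠ 0 := by
    intro x
    rw [aeval_comp, map_pow, aeval_X]
    by_cases hx : x = 0
    · rw [hx, zero_pow two_ne_zero]
      rw [aeval_def, eval₂_at_zero]
      simpa using hF0
    · exact hreal _ (by positivity)
  refine (real_density _ h1 h2 m).mono ?_
  rintro ℓ ⟨h3, h4, h5, h6⟩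
  refine ⟨h3, h4, h5, ?_⟩
  rintro z ⟨y, rfl⟩
  have h7 := h6 y
  rw [Polynomial.map_comp, eval_comp, Polynomial.map_pow, Polynomial.map_X, eval_pow, eval_X, sq]
    at h7
  exact h7

end Pool.Agent.Y701.CH
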